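import Pool.Agent.K1H61.FE.Stt

/-! Atoms of stationary states. -/

set_option autoImplicit false

open Filter Topology

namespace Pool.Agent.K1H61.FE

open Pool.Agent.K1H32.FE

attribute [local instance] compK

/-- the mass of a point -/
noncomputable def mass (L : C(K, ℝ) →ₗ[ℝ] ℝ) (x : K) : ℝ :=
  sInf {t | ∃ f : C(K, ℝ), (∀ y, 0 ≤ f y) ∧ 1 ≤ f x ∧ t = L f}

section

variable {L : C(K, ℝ) →ₗ[ℝ] ℝ} (hL : IsState L)

include hL

theorem mass_bdd (x : K) : BddBelow {t | ∃ f : C(K, ℝ), (∀ y, 0 ≤ f y) ∧ 1 ≤ f x ∧ t = L f} := by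
  refine ⟨0, ?_⟩
  rintro t ⟨f, h1, -, rfl⟩
  exact hL.nonneg f h1

theorem mass_le {x : K} {f : C(K, ℝ)} (h1 : ∀ y, 0 ≤ f y) (h2 : 1 ≤ f x) : mass L x ≤ L f :=
  csInf_le (mass_bdd hL x) ⟨f, h1, h2, rfl⟩

omit hL in
theorem mass_ne (x : K) :
    {t | ∃ f : C(K, ℝ), (∀ y, 0 ≤ f y) ∧ 1 ≤ f x ∧ t = L f}.Nonempty :=
  ⟨L 1, 1, fun _ => by simp, by simp, rfl⟩

omit hL in
theorem mass_ex (x : K) {η : ℝ} (hη : 0 < η) : ∃ f : C(K, ℝ), (∀ y, 0 ≤ f y) ∧ 1 ≤ f x ∧
    L f < mass L x + η := by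
  obtain ⟨t, ⟨f, h1, h2, rfl⟩, h3⟩ := Real.lt_sInf_add_pos (mass_ne (L := L) x) hη
  exact ⟨f, h1, h2, h3⟩

/-- the tent function -/
noncomputable def tent (ρ : ℝ) (x : K) : C(K, ℝ) where
  toFun y := max 0 (1 - dist y x / ρ)
  continuous_toFun := by fun_prop

/-- the masses of finitely many points -/
theorem mass_sum (T : Finset K) : ∑ x ∈ T, mass L x ≤ 1 := by
  classical
  obtain ⟨ρ, hρ, hsep⟩ : ∃ ρ : ℝ, 0 < ρ ∧ ∀ x ∈ T, ∀ y ∈ T, x ≠ y → 2 * ρ ≤ dist x y := by
    by_cases h : ∃ x ∈ T, ∃ y ∈ T, x ≠ y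
    · set D := ((T ×ˢ T).filter fun p => p.1 ≠ p.2) with hD
      have hne : D.Nonempty := by
        obtain ⟨x, hx, y, hy, hxy⟩ := h
        exact ⟨(x, y), by rw [hD, Finset.mem_filter, Finset.mem_product]; exact ⟨⟨hx, hy⟩, hxy⟩⟩
      obtain ⟨p, hp, hmin⟩ := Finset.exists_min_image D (fun p => dist p.1 p.2) hne
      rw [hD, Finset.mem_filter] at hp
      refine ⟨dist p.1 p.2 / 2, by have := dist_pos.2 hp.2; linarith, ?_⟩
      intro x hx y hy hxy
      have := hmin (x, y) (by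
        rw [hD, Finset.mem_filter, Finset.mem_product]; exact ⟨⟨hx, hy⟩, hxy⟩)
      simp only at this
      linarith
    · push Not at h
      exact ⟨1, one_pos, fun x hx y hy hxy => absurd (h x hx y hy) hxy⟩
  have h1 : ∑ x ∈ T, mass L x ≤ ∑ x ∈ T, L (tent ρ x) := by
    apply Finset.sum_le_sum
    intro x _
    apply mass_le hL
    · intro y; exact le_max_left _ _
    · show 1 ≤ max 0 (1 - dist x x / ρ)
      rw [dist_self, zero_div, sub_zero]
      exact le_max_right _ _
  have h2 : ∑ x ∈ T, L (tent ρ x) ≤ 1 := by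
    rw [← map_sum]
    have h0 : L (∑ x ∈ T, tent ρ x) ≤ L 1 := ?_
    · exact h0.trans_eq hL.one
    apply state_mono hL
    intro y
    rw [ContinuousMap.sum_apply, ContinuousMap.one_apply]
    by_cases h3 : ∃ x ∈ T, dist y x < ρ
    · obtain ⟨x, hx, hxy⟩ := h3
      rw [Finset.sum_eq_single_of_mem x hx]
      · show max 0 (1 - dist y x / ρ) ≤ 1
        apply max_le zero_le_one
        have : 0 ≤ dist y x / ρ := by positivity
        linarith
      · intro z hz hzx
        show max 0 (1 - dist y z / ρ) = 0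
        apply max_eq_left
        have h4 := hsep z hz x hx hzx
        have h5 := dist_triangle_left z x y
        have h6 : 1 ≤ dist y z / ρ := by
          rw [le_div_iff₀ hρ]; linarith
        linarith
    · push Not at h3
      have h4 : ∀ x ∈ T, tent ρ x y = 0 := by
        intro x hx
        show max 0 (1 - dist y x / ρ) = 0
        apply max_eq_left
        have h6 : 1 ≤ dist y x / ρ := by
          rw [le_div_iff₀ hρ]; linarith [h3 x hx]
        linarith
      rw [Finset.sum_eq_zero h4]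
      exact zero_le_one
  exact h1.trans h2

theorem mass_fin {ε : ℝ} (hε : 0 < ε) : {x | ε ≤ mass L x}.Finite := by
  by_contra h
  obtain ⟨n, hn⟩ := exists_nat_gt (1 / ε)
  obtain ⟨T, hT, hc⟩ := Set.Infinite.exists_subset_card_eq h n
  have h1 : ∑ _x ∈ T, ε ≤ ∑ x ∈ T, mass L x := Finset.sum_le_sum fun x hx => hT hx
  have h2 := h1.trans (mass_sum hL T)
  rw [Finset.sum_const, hc, nsmul_eq_mul] at h2
  rw [div_lt_iff₀ hε] at hn
  linarith

/-- if small arcs are not uniformly small, there is an atom -/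
theorem mass_pos (h : ¬ NoAtom L) : ∃ ε : ℝ, 0 < ε ∧ ∃ x, ε ≤ mass L x := by
  unfold NoAtom at h
  push Not at h
  obtain ⟨ε, hε, h⟩ := h
  choose x ψ hψ hs hl using fun n : ℕ => h (1 / ((n : ℝ) + 1)) (by positivity)
  obtain ⟨x0, -, θ, hθ, hlim⟩ := isCompact_univ.tendsto_subseq (x := x) fun _ => Set.mem_univ _
  refine ⟨ε, hε, x0, ?_⟩
  apply le_csInf (mass_ne x0)
  rintro t ⟨f, h1, h2, rfl⟩
  have key : ∀ η : ℝ, 0 < η → η < 1 → (1 - η) * ε ≤ L f := by
    intro η hη hη1
    have hc : ∀ᶠ y in 𝓝 x0, 1 - η < f y :=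
      f.continuous.continuousAt.eventually (lt_mem_nhds (by linarith))
    obtain ⟨ρ, hρ, hb⟩ := Metric.eventually_nhds_iff.1 hc
    have e1 : ∀ᶠ n in atTop, dist (x (θ n)) x0 < ρ / 2 :=
      (Metric.tendsto_nhds.1 hlim) (ρ / 2) (by positivity)
    have e2 : ∀ᶠ n in atTop, 1 / ((θ n : ℝ) + 1) < ρ / 2 := by
      have := (tendsto_one_div_add_atTop_nhds_zero_nat (𝕜 := ℝ)).comp hθ.tendsto_atTop
      exact this.eventually (gt_mem_nhds (by positivity))
    obtain ⟨n, hn1, hn2⟩ := (e1.and e2).exists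
    have h3 : (1 - η) * L (ψ (θ n)) ≤ L f := by
      rw [← smul_eq_mul, ← map_smul]
      apply state_mono hL
      intro y
      rw [ContinuousMap.smul_apply, smul_eq_mul]
      by_cases h4 : ψ (θ n) y = 0
      · rw [h4, mul_zero]; exact h1 y
      · have h5 := hs (θ n) y h4
        have h6 : dist y x0 < ρ := by
          have := dist_triangle y (x (θ n)) x0
          linarith
        have h7 := hb h6
        have h8 := (hψ (θ n) y).2
        have h9 := (hψ (θ n) y).1
        nlinarith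
    have h4 := hl (θ n)
    have h5 : (1 - η) * ε ≤ (1 - η) * L (ψ (θ n)) :=
      mul_le_mul_of_nonneg_left h4.le (by linarith)
    linarith
  by_contra hc
  push Not at hc
  have hLf : 0 ≤ L f := hL.nonneg f h1
  have h5 := key ((ε - L f) / (2 * ε)) (by
    apply div_pos <;> linarith) (by rw [div_lt_one (by positivity)]; linarith)
  have h6 : (1 - (ε - L f) / (2 * ε)) * ε = (ε + L f) / 2 := by field_simp; ring
  rw [h6] at h5
  linarith

/-- the masses and the walk -/
theorem mass_stat {ι : Type} [Fintype ι] {σ : ι → SL} {m : ι → ℝ} (ha : S_ACT) (hm : IsPr m)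
    (hst : Stat σ m L) (x : K) : mass L x ≤ ∑ i, m i * mass L (act (σ i)⁻¹ x) := by
  apply le_of_forall_pos_le_add
  intro η hη
  choose f h1 h2 h3 using fun i : ι => mass_ex (L := L) (act (σ i)⁻¹ x) hη
  have hne : (Finset.univ : Finset ι).Nonempty := by
    rw [Finset.univ_nonempty_iff]
    by_contra hc
    rw [not_nonempty_iff] at hc
    have := hm.sum
    rw [Finset.univ_eq_empty, Finset.sum_empty] at this
    exact zero_ne_one this
  set F : C(K, ℝ) := Finset.univ.inf' hne fun i => (f i).comp (act (σ i)⁻¹) with hF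
  have hap : ∀ y, F y = Finset.univ.inf' hne fun i => f i (act (σ i)⁻¹ y) := by
    intro y
    rw [hF, ContinuousMap.inf'_apply]
    rfl
  have hF1 : ∀ y, 0 ≤ F y := by
    intro y
    rw [hap, Finset.le_inf'_iff]
    intro i _
    exact h1 i _
  have hF2 : 1 ≤ F x := by
    rw [hap, Finset.le_inf'_iff]
    intro i _
    exact h2 i
  have hF3 : ∀ i y, F (act (σ i) y) ≤ f i y := by
    intro i y
    have h4 : act (σ i)⁻¹ (act (σ i) y) = y := by
      have h5 := congrArg (fun g : C(K, K) => g y) (ha.1 (σ i)⁻¹ (σ i))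
      rw [inv_mul_cancel, ha.2.1] at h5
      exact h5.symm
    rw [hap]
    refine (Finset.inf'_le _ (Finset.mem_univ i)).trans ?_
    rw [h4]
  calc mass L x ≤ L F := mass_le hL hF1 hF2
    _ = ∑ i, m i * L (F.comp (act (σ i))) := hst F
    _ ≤ ∑ i, m i * (mass L (act (σ i)⁻¹ x) + η) := by
        apply Finset.sum_le_sum
        intro i _
        apply mul_le_mul_of_nonneg_left _ (hm.nonneg i)
        exact (state_mono hL fun y => hF3 i y).trans (h3 i).le
    _ = ∑ i, m i * mass L (act (σ i)⁻¹ x) + η := by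
        simp only [mul_add]
        rw [Finset.sum_add_distrib, ← Finset.sum_mul, hm.sum, one_mul]

end

theorem t_ATOM (h : S_ACT) : S_ATOM := by
  classical
  intro ι _ σ m L hm hL hst
  by_cases hN : NoAtom L
  · exact Or.inl hN
  right
  obtain ⟨ε, hε, x0, hx0⟩ := mass_pos hL hN
  have hfin := mass_fin hL hε
  obtain ⟨x1, hx1, hmax⟩ := Finset.exists_max_image hfin.toFinset (mass L)
    ⟨x0, hfin.mem_toFinset.2 hx0⟩
  have hx1' : ε ≤ mass L x1 := hfin.mem_toFinset.1 hx1
  have hall : ∀ y, mass L y ≤ mass L x1 := by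
    intro y
    by_cases hy : ε ≤ mass L y
    · exact hmax y (hfin.mem_toFinset.2 hy)
    · push Not at hy
      linarith
  refine ⟨hfin.toFinset.filter fun x => mass L x = mass L x1, ⟨x1, ?_⟩, ?_⟩
  · rw [Finset.mem_filter]
    exact ⟨hx1, rfl⟩
  · intro i hi x hx
    rw [Finset.mem_filter] at hx
    have h1 := mass_stat hL h hm hst x
    rw [hx.2] at h1
    have h2 : ∑ i, m i * (mass L x1 - mass L (act (σ i)⁻¹ x)) ≤ 0 := by
      simp only [mul_sub]
      rw [Finset.sum_sub_distrib, ← Finset.sum_mul, hm.sum, one_mul]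
      linarith
    have h3 : ∀ j ∈ Finset.univ, 0 ≤ m j * (mass L x1 - mass L (act (σ j)⁻¹ x)) := by
      intro j _
      exact mul_nonneg (hm.nonneg j) (sub_nonneg.2 (hall _))
    have h4 := (Finset.sum_eq_zero_iff_of_nonneg h3).1 (le_antisymm h2 (Finset.sum_nonneg h3)) i
      (Finset.mem_univ i)
    have h5 : mass L (act (σ i)⁻¹ x) = mass L x1 := by
      have := (mul_eq_zero.1 h4).resolve_left hi
      linarith
    rw [Finset.mem_filter, hfin.mem_toFinset]
    refine ⟨?_, h5⟩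
    show ε ≤ mass L _
    rw [h5]
    exact hx1'

end Pool.Agent.K1H61.FE
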