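import Pool.Agent.K1H32.FE.Stm

/-! Existence of stationary states, limits of states along ultrafilters. -/

set_option autoImplicit false

open Filter Topology

namespace Pool.Agent.K1H61.FE

open Pool.Agent.K1H32.FE

theorem compK : CompactSpace K := by
  have h1 : IsCompact (Set.Icc ((-1, -1) : ℝ × ℝ) (1, 1)) := isCompact_Icc
  have h2 : IsCompact {v : ℝ × ℝ | v.1 ^ 2 + v.2 ^ 2 = 1} := ?_
  · exact isCompact_iff_compactSpace.1 h2
  refine h1.of_isClosed_subset ?_ ?_
  · exact isClosed_eq (by fun_prop) (by fun_prop)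
  · rintro ⟨x, y⟩ h
    have h2 : x ^ 2 + y ^ 2 = 1 := h
    have hx : x ^ 2 ≤ 1 := by nlinarith [sq_nonneg y]
    have hy : y ^ 2 ≤ 1 := by nlinarith [sq_nonneg x]
    have hx' : -1 ≤ x ∧ x ≤ 1 := ⟨by nlinarith, by nlinarith⟩
    have hy' : -1 ≤ y ∧ y ≤ 1 := ⟨by nlinarith, by nlinarith⟩
    exact ⟨⟨hx'.1, hy'.1⟩, ⟨hx'.2, hy'.2⟩⟩

attribute [local instance] compK

theorem state_mono {L : C(K, ℝ) →ₗ[ℝ] ℝ} (hL : IsState L) {f g : C(K, ℝ)} (h : ∀ x, f x ≤ g x) :
    L f ≤ L g := by
  have h1 : 0 ≤ L (g - f) := hL.nonneg _ fun x => by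
    rw [ContinuousMap.sub_apply]; linarith [h x]
  rw [map_sub] at h1
  linarith

theorem state_const {L : C(K, ℝ) →ₗ[ℝ] ℝ} (hL : IsState L) (c : ℝ) :
    L (c • (1 : C(K, ℝ))) = c := by
  rw [map_smul, hL.one, smul_eq_mul, mul_one]

theorem state_abs {L : C(K, ℝ) →ₗ[ℝ] ℝ} (hL : IsState L) (f : C(K, ℝ)) : |L f| ≤ ‖f‖ := by
  rw [abs_le]
  have h1 : ∀ x, |f x| ≤ ‖f‖ := fun x => f.norm_coe_le_norm x
  constructor
  · have := state_mono hL (f := (-‖f‖) • (1 : C(K, ℝ))) (g := f) fun x => by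
      simp only [ContinuousMap.smul_apply, ContinuousMap.one_apply, smul_eq_mul, mul_one]
      exact (abs_le.1 (h1 x)).1
    rwa [state_const hL] at this
  · have := state_mono hL (g := ‖f‖ • (1 : C(K, ℝ))) (f := f) fun x => by
      simp only [ContinuousMap.smul_apply, ContinuousMap.one_apply, smul_eq_mul, mul_one]
      exact (abs_le.1 (h1 x)).2
    rwa [state_const hL] at this

theorem t_ULIM : S_ULIM := by
  intro U Ln hLn
  have hex : ∀ f : C(K, ℝ), ∃ x : ℝ, Tendsto (fun n => Ln n f) U (𝓝 x) := by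
    intro f
    obtain ⟨x, -, hx⟩ := (isCompact_Icc (a := -‖f‖) (b := ‖f‖)).ultrafilter_le_nhds
      (U.map fun n => Ln n f) (by
        rw [Ultrafilter.coe_map, Filter.map_le_iff_le_comap, Filter.comap_principal,
          Filter.le_principal_iff]
        filter_upwards with n
        exact abs_le.1 (state_abs (hLn n) f))
    exact ⟨x, hx⟩
  choose F hF using hex
  let L : C(K, ℝ) →ₗ[ℝ] ℝ :=
    { toFun := F
      map_add' := fun f g => by
        have h1 := (hF f).add (hF g)
        have h2 := hF (f + g)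
        have h3 : (fun n => Ln n (f + g)) = fun n => Ln n f + Ln n g := by
          funext n; rw [map_add]
        rw [h3] at h2
        exact tendsto_nhds_unique h2 h1
      map_smul' := fun c f => by
        have h1 := (hF f).const_mul c
        have h2 := hF (c • f)
        have h3 : (fun n => Ln n (c • f)) = fun n => c * Ln n f := by
          funext n; rw [map_smul, smul_eq_mul]
        rw [h3] at h2
        exact tendsto_nhds_unique h2 h1 }
  refine ⟨L, ⟨?_, ?_⟩, ?_⟩
  · intro f hf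
    exact ge_of_tendsto' (hF f) fun n => (hLn n).nonneg f hf
  · have h1 := hF 1
    have h2 : (fun n => Ln n 1) = fun _ => (1 : ℝ) := by
      funext n; exact (hLn n).one
    rw [h2] at h1
    exact tendsto_nhds_unique h1 tendsto_const_nhds
  · intro fn f hfn
    have h1 : Tendsto (fun n => Ln n (fn n) - Ln n f) U (𝓝 0) := by
      have h2 : Tendsto (fun n => ‖fn n - f‖) U (𝓝 0) :=
        tendsto_iff_norm_sub_tendsto_zero.1 hfn
      apply squeeze_zero_norm _ h2
      intro n
      rw [← map_sub]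
      exact state_abs (hLn n) _
    have h3 := h1.add (hF f)
    rw [zero_add] at h3
    refine h3.congr fun n => ?_
    ring

/-- the Markov operator -/
noncomputable def mop {ι : Type} [Fintype ι] (σ : ι → SL) (m : ι → ℝ) :
    C(K, ℝ) →ₗ[ℝ] C(K, ℝ) where
  toFun f := ∑ i, m i • f.comp (act (σ i))
  map_add' f g := by
    rw [← Finset.sum_add_distrib]
    refine Finset.sum_congr rfl fun i _ => ?_
    ext x
    simp only [ContinuousMap.smul_apply, ContinuousMap.comp_apply, ContinuousMap.add_apply,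
      smul_eq_mul]
    ring
  map_smul' c f := by
    rw [RingHom.id_apply, Finset.smul_sum]
    refine Finset.sum_congr rfl fun i _ => ?_
    ext x
    simp only [ContinuousMap.smul_apply, ContinuousMap.comp_apply, smul_eq_mul]
    ring

theorem mop_apply {ι : Type} [Fintype ι] (σ : ι → SL) (m : ι → ℝ) (f : C(K, ℝ)) (x : K) :
    mop σ m f x = ∑ i, m i * f (act (σ i) x) := by
  show (∑ i, m i • f.comp (act (σ i)) : C(K, ℝ)) x = _
  rw [ContinuousMap.sum_apply]
  rfl

theorem mop_nonneg {ι : Type} [Fintype ι] {σ : ι → SL} {m : ι → ℝ} (hm : IsPr m) (j : ℕ)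
    (f : C(K, ℝ)) (hf : ∀ x, 0 ≤ f x) : ∀ x, 0 ≤ (mop σ m ^ j) f x := by
  induction j with
  | zero => exact hf
  | succ j ih =>
    intro x
    rw [pow_succ', Module.End.mul_apply, mop_apply]
    exact Finset.sum_nonneg fun i _ => mul_nonneg (hm.nonneg i) (ih _)

theorem mop_one {ι : Type} [Fintype ι] {σ : ι → SL} {m : ι → ℝ} (hm : IsPr m) (j : ℕ) :
    (mop σ m ^ j) 1 = 1 := by
  induction j with
  | zero => rfl
  | succ j ih =>
    rw [pow_succ', Module.End.mul_apply, ih]
    ext x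
    rw [mop_apply]
    simp only [ContinuousMap.one_apply, mul_one]
    exact hm.sum

/-- evaluation of the iterates -/
noncomputable def evl {ι : Type} [Fintype ι] (σ : ι → SL) (m : ι → ℝ) (x : K) (j : ℕ) :
    C(K, ℝ) →ₗ[ℝ] ℝ where
  toFun f := (mop σ m ^ j) f x
  map_add' f g := by rw [map_add]; rfl
  map_smul' c f := by rw [map_smul]; rfl

theorem evl_state {ι : Type} [Fintype ι] {σ : ι → SL} {m : ι → ℝ} (hm : IsPr m) (x : K) (j : ℕ) :
    IsState (evl σ m x j) := by
  refine ⟨fun f hf => mop_nonneg hm j f hf x, ?_⟩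
  show (mop σ m ^ j) 1 x = 1
  rw [mop_one hm]
  rfl

theorem t_STAT : S_STAT := by
  intro ι _ σ m hm
  have x0 : K := ⟨(1, 0), by norm_num⟩
  set Ln : ℕ → (C(K, ℝ) →ₗ[ℝ] ℝ) := fun N =>
    ((1 : ℝ) / ((N : ℝ) + 1)) • ∑ j ∈ Finset.range (N + 1), evl σ m x0 j with hLn
  have hap : ∀ N f, Ln N f = (1 : ℝ) / ((N : ℝ) + 1) *
      ∑ j ∈ Finset.range (N + 1), (mop σ m ^ j) f x0 := by
    intro N f
    rw [hLn]
    simp only [LinearMap.smul_apply, LinearMap.coe_sum, Finset.sum_apply, smul_eq_mul]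
    rfl
  have hst : ∀ N, IsState (Ln N) := by
    intro N
    constructor
    · intro f hf
      rw [hap]
      exact mul_nonneg (by positivity) (Finset.sum_nonneg fun j _ => mop_nonneg hm j f hf x0)
    · rw [hap]
      have : ∀ j ∈ Finset.range (N + 1), (mop σ m ^ j) 1 x0 = 1 := by
        intro j _
        rw [mop_one hm]
        rfl
      rw [Finset.sum_congr rfl this, Finset.sum_const, Finset.card_range, nsmul_eq_mul]
      push_cast
      field_simp
  obtain ⟨L, hL, hlim⟩ := t_ULIM (hyperfilter ℕ) Ln hst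
  have hU : ((hyperfilter ℕ : Ultrafilter ℕ) : Filter ℕ) ≤ atTop := Nat.hyperfilter_le_atTop
  refine ⟨L, hL, ?_⟩
  intro f
  have hP : L (mop σ m f) = ∑ i, m i * L (f.comp (act (σ i))) := by
    show L (∑ i, m i • f.comp (act (σ i))) = _
    rw [map_sum]
    refine Finset.sum_congr rfl fun i _ => ?_
    rw [map_smul, smul_eq_mul]
  rw [← hP]
  have h1 := hlim (fun _ => mop σ m f) (mop σ m f) tendsto_const_nhds
  have h2 := hlim (fun _ => f) f tendsto_const_nhds
  have h3 := h1.sub h2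
  have h4 : Tendsto (fun n => Ln n (mop σ m f) - Ln n f) atTop (𝓝 0) := by
    have h5 : Tendsto (fun n : ℕ => 2 * ‖f‖ * (1 / ((n : ℝ) + 1))) atTop (𝓝 0) := by
      have := (tendsto_one_div_add_atTop_nhds_zero_nat (𝕜 := ℝ)).const_mul (2 * ‖f‖)
      rwa [mul_zero] at this
    apply squeeze_zero_norm _ h5
    intro n
    rw [hap, hap, ← mul_sub, ← Finset.sum_sub_distrib]
    have h6 : ∀ j ∈ Finset.range (n + 1), (mop σ m ^ j) (mop σ m f) x0 - (mop σ m ^ j) f x0 =
        (mop σ m ^ (j + 1)) f x0 - (mop σ m ^ j) f x0 := by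
      intro j _
      rw [pow_succ, Module.End.mul_apply]
    rw [Finset.sum_congr rfl h6, Finset.sum_range_sub (fun j => (mop σ m ^ j) f x0),
      norm_mul, mul_comm (2 * ‖f‖)]
    have h7 : ‖(1 : ℝ) / ((n : ℝ) + 1)‖ = 1 / ((n : ℝ) + 1) := by
      rw [Real.norm_eq_abs, abs_of_nonneg (by positivity)]
    rw [h7]
    apply mul_le_mul_of_nonneg_left _ (by positivity)
    have h8 : |(mop σ m ^ (n + 1)) f x0| ≤ ‖f‖ := state_abs (evl_state hm x0 (n + 1)) f
    have h9 : |(mop σ m ^ 0) f x0| ≤ ‖f‖ := state_abs (evl_state hm x0 0) f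
    rw [Real.norm_eq_abs]
    calc |(mop σ m ^ (n + 1)) f x0 - (mop σ m ^ 0) f x0| ≤ |(mop σ m ^ (n + 1)) f x0| +
          |(mop σ m ^ 0) f x0| := abs_sub _ _
      _ ≤ 2 * ‖f‖ := by linarith
  have h5 := tendsto_nhds_unique h3 (h4.mono_left hU)
  linarith

end Pool.Agent.K1H61.FE
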